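import Pool.Agent.Lib.MP_364e81_gt.Main

set_option autoImplicit false

namespace Pool.Agent.Results.MP_364e81_gt.NonzeroTotal

open Pool.Agent.Lib.MP_364e81_gt MeasureTheory
open scoped ContDiff

/-- There is a complete stationary surface `ℂ → ℝ⁴₁` with finite total Gaussian curvature and
finite total absolute normal curvature whose total normal curvature is not zero. -/
theorem result : ∃ x e3 e4 : ℂ → Fin 4 → ℝ,
    ContDiff ℝ ∞ x ∧ IsSpacelike x ∧ IsStationary x ∧ IsCompleteSurface x ∧
    IsNormalFrame x e3 e4 ∧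
    Integrable (fun z => |gaussK x z| * area x z) ∧
    Integrable (fun z => |normalK x e3 e4 z| * area x z) ∧
    ∫ z, normalK x e3 e4 z * area x z ≠ 0 := by
  obtain ⟨S, b, hb, h1, h2, h3, h4⟩ := exists_surface
  refine ⟨S.x, S.e3, S.e4, S.smooth_x, S.isSpacelike, S.isStationary, h1, S.isNormalFrame,
    h2, h3, ?_⟩
  rw [h4]
  have := Real.pi_pos
  positivity

end Pool.Agent.Results.MP_364e81_gt.NonzeroTotal
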